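import Pool.Agent.Q137.UO.WOrd
import Pool.Agent.Q137.UO.Dens

/-!
# Density of ordinary primes for abelian varieties, and one weight of cubic hypersurfaces

Let `K` be a number field and `M` the category of motives over `K` (for motivated cycles), a semisimple
abelian category. Let `w` be an integer. For a scheme `X` of finite type over `ℚ` let `D.H N n X` be the
object `Gr^W_{w+2N} H^n_c(X_K)` of `M`; for smooth projective `X` it is `h^n(X_K)` if `n = w + 2N`, and it
is zero otherwise. Let `ord N` be the set of the finite places `v` of `K` such that the `p`-adic
realization of `N` (`v | p`) is crystalline at `v`, and the Newton polygon of its crystalline Frobenius is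
the Hodge polygon of `N`.

`ProjAt D ord PosDens N` is the statement that for every smooth projective scheme `Y` over `ℚ` the places
`v` of `K` at which the Newton polygon of `H^m(Y_K)` is its Hodge polygon, `m = w + 2N`, have positive
density. (All smooth projective varieties over `K` are unions of components of such schemes `Y_K`.) For
`w = 1` and `N = 0` this is the question of Serre: `h^1(Y_K)` is `h^1` of the Albanese variety, so the
statement is that every abelian variety over `K` has good ordinary reduction at a set of places of
positive density.

`GraphsAt D ord PosDens N` is the statement that for finitely many finite sets `H_s` of triples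
`(i, j, l)` with `1 ≤ i ≤ a_s`, and degrees `n_s`, the common places of the motives
`Gr^W_{m + 2(a_s - 1)} H^{n_s}_c(X_s)`, where `X_s` is the cubic hypersurface
`∑_{(i, j, l) ∈ H_s} x_i y_j z_l = 1`, have positive density.

**Theorem.** The two statements are equivalent. In particular (`w = 1`, `N = 0`) the places of good
ordinary reduction of all abelian varieties over `K` have positive density if and only if the common
ordinary places of finitely many motives `Gr^W_{2a_s - 1} H^{n_s}_c(X_s)` have positive density.

If for all smooth projective `Y` almost all places are places for `H^m(Y_K)` (this is known for `m ≤ 0`),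
then almost all places are places for `Gr^W_{m + 2(a - 1)} H^n_c`, for all hypersurfaces `T(x, y, z) = 1`
of trilinear forms with rational coefficients in `a` variables `x`, and all `n`. So
`Gr^W_{2j} H^n_c(T = 1)` is ordinary at almost all places for `j < a`.
-/

set_option autoImplicit false

open CategoryTheory CategoryTheory.Limits AlgebraicGeometry Pool.Agent.Y116.UV Pool.Agent.Z125.UN
  Pool.Agent.Q193.LT Pool.Agent.Q137.UO Pool.Agent.Q49.WU IsDedekindDomain NumberField

universe v u

namespace Pool.Agent.Results.MP_17d720_ag.AbelianVarieties

/-- **Density of ordinary places, weight by weight.** See the explanations above. -/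
theorem result {K : Type} [Field K] [NumberField K] {M : Type u} [Category.{v} M] [Abelian M]
    {D : WeightData ℚ M} (h : IsWMotives D) {ord : M → Set (HeightOneSpectrum (𝓞 K))}
    (hO : IsWPlace D ord) (N : ℤ) :
    (ProjAt D ord PosDens N ↔ GraphsAt D ord PosDens N) ∧
    ((∀ (Y : Sch ℚ) (n : ℤ), SmoothProj Y → (Set.univ \ ord (D.H N n Y)).Finite) →
      ∀ (a b c : ℕ) (T : Fin a → Fin b → Fin c → ℚ) (n : ℤ),
        (Set.univ \ ord (D.H (N + (a - 1)) n (hypS T))).Finite) :=
  ⟨graphs_at_iff h hO large_posDens frac_rat N, fun h0 _ _ _ T n => almost_all_at h hO N h0 T n⟩

end Pool.Agent.Results.MP_17d720_ag.AbelianVarieties
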