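import Pool.Agent.Q205.HWc.Almost

/-!
# Ordinary reduction of almost all members of a family of curves

`C_t : y ^ m = g (x) + t x ^ j`, for integers `t`, with `g ∈ ℤ[x]` arbitrary and fixed, `f_t = g + t x ^ j`
of degree `n` with `f_t (0) ≠ 0`, `0 ≤ j ≤ n`. Let `D = m max (j, 1) max (n - j, 1)`, and let
`c = prop m n j` be the sum over `0 < a < m` and over the `i ≥ 1` with `i m < n a` of
`i / j` if `i m ≤ j a`, and of `(n a - i m) / (m (n - j))` otherwise.

**Theorem.** Let `ε > 0`, let `x = x(T)` tend to infinity with `x(T)² / T → 0` (for example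
`x = T ^ (1/2 - δ)`), and take for every `T` an interval of `T` consecutive integers. Then for all but
`o(T)` of the `t` in the interval the curve `C_t` has good ordinary reduction at at least
`(1 - c - ε) π(x; D, 1)` of the primes `p ≤ x` which are `1` modulo `D`.

So if `c < 1`, almost all members of the family have ordinary reduction at a positive proportion of the
primes up to `T ^ (1/2 - δ)`. For `j = 0` the number `c` is the sum of the `a / m - i / n > 0`, and
`c < 1` for `y² = g (x) + t`, `deg g ≤ 9`, so up to genus 4 (`c = 2/5, 1/2` in genus 2, `9/14, 3/4` in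
genus 3, `8/9` for `deg g = 9`), for `y³ = g (x) + t` with `deg g ≤ 5` (`2/3` for Picard curves of genus
3, `14/15` in genus 4), for `y⁴ = g (x) + t` and `y⁵ = g (x) + t` with `deg g = 3`.

Good ordinary reduction at `p`: modulo `p` the polynomial `f_t` has degree `n` and is separable, and for
`0 < a < m` the block of the Hasse-Witt matrix on the differentials `x ^ (l - 1) dx / y ^ a` is invertible
(for `p ≡ 1` modulo `m` the Cartier operator preserves these blocks).

Proof. For `p ≡ 1` modulo `D` the determinant of a block is a polynomial in `t` which is not zero modulo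
`p`: its leading coefficient is a product of binomial coefficients and of powers of `f (0)` and of the
leading coefficient; the sum of the degrees of the blocks is at most `c (p - 1)`. So the reduction is
good and ordinary for all but `c p + n + 1` residues `t` modulo `p`. By the Chinese remainder theorem the
conditions for different primes are independent up to `O(p q)`, and a second moment gives the theorem.
-/

set_option autoImplicit false

namespace Pool.Agent.Results.MP_17d720_ag.AlmostAllMembers

open Polynomial Filter Topology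

/-- The block with the index `a` of the Hasse-Witt (Cartier-Manin) matrix of `y ^ m = f (x)`, in
characteristic `p` with `m` dividing `p - 1`: the entry with the indices `i`, `l` (from `0`) is the
coefficient of `x ^ (p (i + 1) - (l + 1))` in `f ^ (a (p - 1) / m)`, written as the coefficient of
`x ^ (p (i + 1))` in `x ^ (l + 1) f ^ (a (p - 1) / m)`. -/
noncomputable def hasseWitt {R : Type*} [CommRing R] (p m a g : ℕ) (f : R[X]) :
    Matrix (Fin g) (Fin g) R :=
  Matrix.of fun i l => (X ^ ((l : ℕ) + 1) * f ^ (a * ((p - 1) / m))).coeff (p * ((i : ℕ) + 1))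

/-- the number of the `l ≥ 1` with `m l < n a`: the number of the holomorphic differentials
`x ^ (l - 1) dx / y ^ a` on `y ^ m = f (x)`, for `f` squarefree of degree `n` -/
def genusPart (m n a : ℕ) : ℕ := (n * a - 1) / m

/-- `C_t : y ^ m = g (x) + t x ^ j` has good ordinary reduction at `p` (`p ≡ 1` modulo `m`) -/
def GoodOrdinary (m n j : ℕ) (g : ℤ[X]) (p : ℕ) (t : ℤ) : Prop :=
  ((C t * X ^ j + g).map (Int.castRingHom (ZMod p))).natDegree = n ∧
  ((C t * X ^ j + g).map (Int.castRingHom (ZMod p))).Separable ∧
  ∀ a, 0 < a → a < m → (hasseWitt p m a (genusPart m n a)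
    ((C t * X ^ j + g).map (Int.castRingHom (ZMod p)))).det ≠ 0

/-- the modulus `D` -/
def modulus (m n j : ℕ) : ℕ := m * (max j 1 * max (n - j) 1)

/-- the number `c`: the sum over `0 < a < m` and `0 ≤ i < genusPart m n a` of
`(i + 1) / max (j, 1)` if `(i + 1) m ≤ j a`, and of `(n a - (i + 1) m) / (m max (n - j, 1))` otherwise -/
noncomputable def prop (m n j : ℕ) : ℝ :=
  (∑ a ∈ Finset.Ioo 0 m, ∑ i : Fin (genusPart m n a),
    (if ((i : ℕ) + 1) * m ≤ j * a then ((i : ℕ) + 1) * m * max (n - j) 1
      else max j 1 * (n * a - ((i : ℕ) + 1) * m) : ℕ) : ℕ) / (modulus m n j : ℝ)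

/-- the primes up to `x` which are `1` modulo `D` -/
def primesOne (D x : ℕ) : Finset ℕ :=
  (Finset.range (x + 1)).filter fun p => p.Prime ∧ p ≡ 1 [MOD D]

open scoped Classical in
theorem result (m n j : ℕ) (hm : 0 < m) (hn : 2 ≤ n) (hj : j ≤ n) (g : ℤ[X])
    (hg : g.natDegree ≤ n) (h0 : 0 < j → g.coeff 0 ≠ 0) (hn' : j < n → g.coeff n ≠ 0)
    (ε : ℝ) (hε : 0 < ε) (A : ℕ → ℤ) (x : ℕ → ℕ) (hx : Tendsto x atTop atTop)
    (hxT : Tendsto (fun T : ℕ => (x T : ℝ) ^ 2 / T) atTop (𝓝 0)) :
    -- the proportion of the exceptional `t` in `[A T, A T + T)` tends to zero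
    Tendsto (fun T : ℕ => (((Finset.Ico (A T) (A T + T)).filter fun t =>
      (((primesOne (modulus m n j) (x T)).filter fun p => GoodOrdinary m n j g p t).card : ℝ) <
        (1 - prop m n j - ε) * ((primesOne (modulus m n j) (x T)).card : ℝ)).card : ℝ) / T)
      atTop (𝓝 0) :=
  Pool.Agent.Q205.HWc.almost hm hn hj g hg h0 hn' ε hε A x hx hxT

end Pool.Agent.Results.MP_17d720_ag.AlmostAllMembers
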