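import Pool.Agent.Q137.UO.Ord
import Pool.Agent.Q137.UO.Dens

/-!
# Density of primes of ordinary reduction, and cubic hypersurfaces

Let `K` be a number field and `M` the category of motives over `K` (for motivated cycles), a semisimple
abelian category. For a scheme `X` of finite type over `ℚ` let `D.H i X` be the object of `M` given by the
graded object of the weight filtration of `H^i_c(X_K)`; for smooth projective `X` it is `h^i(X_K)`.

* `O.ord N` is the set of the finite places `v` of `K` such that the `p`-adic realization of `N` (`v | p`) is
  crystalline at `v`, and the Newton polygon of its crystalline Frobenius is the Hodge polygon of `N`. The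
  Newton polygon lies above the Hodge polygon, so this is inherited by direct factors.
* `O.places X` is the set of the places at which `X_K` is ordinary: the places which belong to
  `O.ord (D.H i X)` for all `i`. For smooth projective `X` these are, up to finitely many, the places of
  good ordinary reduction of `X_K` (Bloch-Kato, Katz-Messing).

Every smooth projective variety over `K` is a union of connected components of `Y_K` for a smooth
projective scheme `Y` over `ℚ` of the same dimension. So the conjecture (question Q1) for `K` is the
statement that `O.places Y` has positive density for all smooth projective `Y` over `ℚ`.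

**Theorem.**
1. The conjecture is true for `K` if and only if for all finite families of finite sets `H_s` of triples
   the places of `K` at which all the affine cubic hypersurfaces `∑_{(i, j, l) ∈ H_s} x_i y_j z_l = 1`
   are ordinary have positive density.
2. For every `n` it is true for the smooth projective schemes of dimension at most `n` if and only if the
   common ordinary places of finitely many hypersurfaces `T(x, y, z) = 1`, `T` a trilinear form with
   rational coefficients and a block of at most `n + 2` variables, have positive density.
3. A hypersurface `T(x, y, z) = 1` is ordinary at all but finitely many places, if `T` has a block of at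
   most two variables.
-/

set_option autoImplicit false

open CategoryTheory CategoryTheory.Limits AlgebraicGeometry Pool.Agent.Y116.UV Pool.Agent.Z125.UN
  Pool.Agent.Q193.LT Pool.Agent.Q137.UO IsDedekindDomain NumberField

universe v u

namespace Pool.Agent.Results.MP_17d720_ag.OrdinaryCubics

/-- **Density of ordinary places, and cubic hypersurfaces.** See the explanations above. -/
theorem result {K : Type} [Field K] [NumberField K] {M : Type u} [Category.{v} M] [Abelian M]
    {D : CompactData ℚ M} (h : IsMotives D) {O : PlaceData ℚ M (HeightOneSpectrum (𝓞 K))}
    (hO : IsPlace D O) :
    ((∀ Y : Sch ℚ, SmoothProj Y → PosDens (O.places Y)) ↔ FamGraphs O PosDens) ∧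
    (∀ n : ℕ, (∀ Y : Sch ℚ, SmoothProj Y → topologicalKrullDim Y.left ≤ n →
      PosDens (O.places Y)) ↔ FamForms O PosDens (n + 2)) ∧
    ∀ (a b c : ℕ) (T : Fin a → Fin b → Fin c → ℚ), (a ≤ 2 ∨ b ≤ 2 ∨ c ≤ 2) →
      (Set.univ \ O.places (hypS T)).Finite :=
  ⟨graphs_iff h hO large_posDens frac_rat, fun n => dim_forms_iff h hO large_posDens n,
    fun _ _ _ T hT => two_variables h hO T hT⟩

end Pool.Agent.Results.MP_17d720_ag.OrdinaryCubics
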