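import Pool.Agent.Q205.Ord.Final
import Pool.Agent.W528.Ord.AllEll

/-!
# Ordinary reduction of varieties whose cohomology is a summand of tensor constructions

`K₀` is a number field and `X` a smooth projective variety over `K₀`; `F j` are the characteristic
polynomials of the geometric Frobenius elements on the cohomology of `X` in the degrees `j`, and `H j`
are the Hodge slopes. Let `K` be a finite extension of `K₀` and `A i` pure motives over `K`, of any
weights, with multiplication by totally real or CM fields `E i` (and connected monodromy groups).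
A letter is a part `(i, σ)` of a piece, `σ` an embedding of `E i`; a word is a tensor product of letters.

Suppose that the cohomology of `X` over `K` is, in each degree, a direct summand of a finite direct sum
of words: there are Frobenius polynomials `F' j` over `K` with Hodge slopes `H' j` (the complement), the
roots of `F j * F' j` are the Frobenius eigenvalues on the words, and `H j + H' j` are their Hodge
slopes. Mazur's inequality holds for `F j` and `F' j`.

Theorem.

1. If some element `γ` of the Galois group of `K` is admissible for all the pieces (orbit condition of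
   the starting library), then the places of `K₀` at which the Newton polygons of `X` are the Hodge
   polygons in all degrees have positive lower density.
2. Over `K` their lower density is at least the proportion of the admissible elements.
3. If the identity is admissible for all the pieces, their density over `K` is one.

Example. The identity is admissible for the transcendental parts of the cohomology in degree 2 of K3
surfaces and in degree 4 of cubic fourfolds (more generally for motives of weight `2 r` with the Hodge
numbers `1, n - 2, 1`), for elliptic curves and abelian surfaces, and for motives with a single Hodge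
slope (such as the Tate motive). So `X` has ordinary reduction at a set of places of density one over a
finite extension, and of positive density over `K₀`, if its motive is a summand of a sum of tensor
products of such motives: products of K3 surfaces, abelian surfaces, curves of genus at most 2 and cubic
fourfolds, Hilbert schemes of points on K3 and abelian surfaces, moduli spaces of sheaves on K3 surfaces,
and all varieties dominated by them.

Proof. At the places where no part of a piece has an excess at a vertex (starting library: their density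
is at least the proportion of the admissible elements) the slopes of all words are known, for one
embedding of the algebraic numbers into the algebraic closure of `ℚ_p`. Gauss norms are multiplicative,
and Mazur's inequality bounds the Gauss norms of `F j` and `F' j` by those of the Hodge polygons; as the
products agree, both bounds are equalities, for all radii.
-/

set_option autoImplicit false

namespace Pool.Agent.Results.MP_17d720_ag.TensorConstructions

open NumberField IsDedekindDomain Polynomial Filter Topology
open Pool.Agent.W401.Cheb Pool.Agent.W528.Ord Pool.Agent.Q205.Ord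
open Pool.Agent.W528.Ord.MultSystem (IsDeg1)

/-- The cohomology in the degrees `j`, with the Frobenius polynomials `F j` and the Hodge slopes `H j`,
is over `K` a direct summand of the sum of the tensor products given by the list of words `T j`; the
complement has the Frobenius polynomials `F' j` and the Hodge slopes `H' j`. -/
structure IsSummand {K₀ K : Type} [Field K₀] [NumberField K₀] [Field K] [NumberField K] [Algebra K₀ K]
    {ℓ : ℕ} [Fact ℓ.Prime] {ι : Type} [Fintype ι] (A : ι → MotSystem K ℓ) (S : Finset ℕ) {J : Type}
    (F : J → HeightOneSpectrum (𝓞 K₀) → ℤ[X]) (F' : J → HeightOneSpectrum (𝓞 K) → ℤ[X])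
    (H H' : J → Multiset ℕ) (T : J → List (Word A)) : Prop where
  /-- Mazur's inequality for the cohomology -/
  above : ∀ j v₀, IsDeg1 S v₀ → Above (Ideal.absNorm v₀.asIdeal) (F j v₀) (H j)
  /-- Mazur's inequality for the complement -/
  above' : ∀ j v, IsDeg1 S v → Above (Ideal.absNorm v.asIdeal) (F' j v) (H' j)
  /-- the Frobenius eigenvalues on the words -/
  frob : ∀ (j : J) (v₀ : HeightOneSpectrum (𝓞 K₀)) (v : HeightOneSpectrum (𝓞 K)),
    v.asIdeal.comap (algebraMap (𝓞 K₀) (𝓞 K)) = v₀.asIdeal → IsDeg1 S v →
    ((F j v₀ * F' j v).map (Int.castRingHom (AlgebraicClosure K))).roots = frobRoots A v (T j)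
  /-- the Hodge slopes of the words -/
  hodge : ∀ j, H j + H' j = hodgeSlopes A (T j)

theorem result (K₀ K : Type) [Field K₀] [NumberField K₀] [Field K] [NumberField K] [Algebra K₀ K]
    (ℓ : ℕ) [Fact ℓ.Prime] {ι : Type} [Fintype ι] (A : ι → MotSystem K ℓ)
    (χ : GK K →* (PadicAlgCl ℓ)ˣ) (S : Finset ℕ) (hA : ∀ i, (A i).IsMotive χ S) {J : Type}
    (F : J → HeightOneSpectrum (𝓞 K₀) → ℤ[X]) (F' : J → HeightOneSpectrum (𝓞 K) → ℤ[X])
    (H H' : J → Multiset ℕ) (T : J → List (Word A))
    (hX : IsSummand A S F F' H H' T) :
    ((∃ γ : GK K, ∀ i, (A i).Admissible γ) → 0 < lowerDensity fun v₀ : HeightOneSpectrum (𝓞 K₀) =>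
      IsDeg1 S v₀ ∧ ∀ j, NewtonSlopes (Ideal.absNorm v₀.asIdeal) (F j v₀) (H j)) ∧
    MotSystem.admProportion A ≤ lowerDensity (fun v : HeightOneSpectrum (𝓞 K) => IsDeg1 S v ∧
      ∀ v₀ : HeightOneSpectrum (𝓞 K₀), v.asIdeal.comap (algebraMap (𝓞 K₀) (𝓞 K)) = v₀.asIdeal →
        ∀ j, NewtonSlopes (Ideal.absNorm v₀.asIdeal) (F j v₀) (H j)) ∧
    ((∀ i, (A i).Admissible 1) → Tendsto (ratio fun v : HeightOneSpectrum (𝓞 K) => IsDeg1 S v ∧
      ∀ v₀ : HeightOneSpectrum (𝓞 K₀), v.asIdeal.comap (algebraMap (𝓞 K₀) (𝓞 K)) = v₀.asIdeal →
        ∀ j, NewtonSlopes (Ideal.absNorm v₀.asIdeal) (F j v₀) (H j)) atTop (𝓝 1)) := by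
  have key : ∀ (v : HeightOneSpectrum (𝓞 K)) (v₀ : HeightOneSpectrum (𝓞 K₀)), NoExcess A S v →
      v.asIdeal.comap (algebraMap (𝓞 K₀) (𝓞 K)) = v₀.asIdeal → IsDeg1 S v₀ ∧
        ∀ j, NewtonSlopes (Ideal.absNorm v₀.asIdeal) (F j v₀) (H j) := by
    intro v v₀ hv h0
    have hd0 : IsDeg1 S v₀ := by
      unfold IsDeg1
      rw [under_norm v hv.1.1 v₀ h0]
      exact hv.1
    refine ⟨hd0, fun j => ?_⟩
    obtain ⟨p, hp, τ, hpe, hpart⟩ := exists_tau_parts A χ S hA hv
    have e : Ideal.absNorm v₀.asIdeal = p := (under_norm v hv.1.1 v₀ h0).trans hpe
    have h1 := hX.above j v₀ hd0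
    have h2 := hX.above' j v hv.1
    rw [hpe] at h2
    rw [e] at h1 ⊢
    exact newton_summand A τ hpart (T j) (F j v₀) (F' j v) (H j) (H' j) h1 h2
      (hX.frob j v₀ v h0 hv.1) (hX.hodge j)
  have hmono : ∀ v : HeightOneSpectrum (𝓞 K), NoExcess A S v → IsDeg1 S v ∧
      ∀ v₀ : HeightOneSpectrum (𝓞 K₀), v.asIdeal.comap (algebraMap (𝓞 K₀) (𝓞 K)) = v₀.asIdeal →
        ∀ j, NewtonSlopes (Ideal.absNorm v₀.asIdeal) (F j v₀) (H j) :=
    fun v hv => ⟨hv.1, fun v₀ h0 => (key v v₀ hv h0).2⟩
  refine ⟨fun hγ => lower_down A χ S hA K₀ _ key hγ, ?_, fun h1 => ?_⟩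
  · exact (lowerDensity_noExcess A χ S hA).trans (lowerDensity_mono _ _ hmono)
  · refine tendsto_of_tendsto_of_tendsto_of_le_of_le (ratio_noExcess A χ S hA h1)
      tendsto_const_nhds (fun N => ?_) (fun N => ratio_le_one _ N)
    exact ratio_mono hmono N

end Pool.Agent.Results.MP_17d720_ag.TensorConstructions
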